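import Pool.Agent.P.MP_f5d68c_lc.Nar.Defs

open Cardinal Filter Set

universe u v

namespace Pool.Agent.P.MP_f5d68c_lc.Nar

/-! Working definitions used only inside the proofs. -/


/-- For every `ν < m` some `ν`-complete ultrafilter on `Sm m α` contains all cones. -/
def AC (m : Cardinal.{v}) (α : Type v) : Prop :=
  ∀ ν < m, ∃ W : Ultrafilter (Sm m α),
    CardinalInterFilter (W : Filter (Sm m α)) ν ∧
      ∀ z, ∀ᶠ z' in (W : Filter (Sm m α)), z ≤ z'

/-- `R` is `V_α` for an ordinal `α` or `H_θ` for a regular cardinal `θ`. -/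
def Suitable (R : ZFSet.{u}) : Prop :=
  (∃ a : Ordinal.{u}, R = ZFSet.vonNeumann a) ∨
    ∃ θ : Cardinal.{u}, θ.IsRegular ∧
      ∀ x : ZFSet.{u}, x ∈ R ↔ ∃ t : ZFSet.{u}, t.IsTransitive ∧ x ⊆ t ∧ t.card < θ

/-- `κ` is the least ordinal `a ∈ M` with `M ∩ a ≠ a`. -/
def IsKappa (M : Set ZFSet.{u}) (κ : Ordinal.{u}) : Prop :=
  IsLeast {a : Ordinal.{u} | a.toZFSet ∈ M ∧
    M ∩ (a.toZFSet : Set ZFSet.{u}) ≠ (a.toZFSet : Set ZFSet.{u})} κ

/-- `M` is `δ`-guessing: every `(δ, M)`-approximated subset `d ∈ R` of a set `X ∈ M` is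
`M`-guessed. -/
def Gs (R : ZFSet.{u}) (M : Set ZFSet.{u}) (δ : Cardinal.{u}) : Prop :=
  ∀ X ∈ M, ∀ d ∈ R, d ⊆ X →
    (∀ Z ∈ M, Z ⊆ R → Z.card < δ → d ∩ Z ∈ M) →
    ∃ e ∈ M, e ⊆ X ∧ (d : Set ZFSet.{u}) ∩ M = (e : Set ZFSet.{u}) ∩ M

/-- The union `M` of `x` is the universe of an elementary substructure of `R`, `κ_M = μ⁺`, and
`M` is `μ⁺`-guessing. -/
def GoodHull (L : FirstOrder.Language.{0, 0}) (R : ZFSet.{u}) [L.Structure R]
    (μ : Cardinal.{u}) (x : Set (Sm (lift.{u + 1} μ) R)) : Prop :=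
  (∃ E : L.ElementarySubstructure R, (E : Set R) = ⋃ z ∈ x, z.1) ∧
    IsKappa (Subtype.val '' ⋃ z ∈ x, z.1) (Order.succ μ).ord ∧
    Gs R (Subtype.val '' ⋃ z ∈ x, z.1) (Order.succ μ)

end Pool.Agent.P.MP_f5d68c_lc.Nar

namespace Pool.Agent.P.MP_f5d68c_lc.Nar

/-! Ultrafilter lemmas. -/


theorem fin3_avoid (a b : Fin 3) : ∃ c : Fin 3, c ≠ a ∧ c ≠ b := by
  revert a b; decide

theorem finite_colouring {B : Type*} (f : B → B) (F : Finset B) :
    ∃ χ : B → Fin 3, ∀ b ∈ F, f b ≠ b → χ (f b) ≠ χ b := by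
  classical
  induction F using Finset.strongInduction with
  | H F ih =>
    rcases F.eq_empty_or_nonempty with rfl | hF
    · exact ⟨fun _ => 0, by simp⟩
    have h1 : ∃ b ∈ F, (F.filter fun a => f a = b).card ≤ 1 := by
      by_contra hcon
      push Not at hcon
      have h2 : ∑ b ∈ F, (F.filter fun a => f a = b).card ≤ F.card := by
        rw [← Finset.card_biUnion]
        · exact Finset.card_le_card (fun a ha => by
            obtain ⟨b, -, hb⟩ := Finset.mem_biUnion.1 ha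
            exact (Finset.mem_filter.1 hb).1)
        · intro a _ b _ hab
          refine Finset.disjoint_left.2 fun x hx hy => hab ?_
          rw [← (Finset.mem_filter.1 hx).2, (Finset.mem_filter.1 hy).2]
      have h3 : ∑ _b ∈ F, 2 ≤ ∑ b ∈ F, (F.filter fun a => f a = b).card :=
        Finset.sum_le_sum fun b hb => hcon b hb
      have h4 := hF.card_pos
      simp only [Finset.sum_const, smul_eq_mul] at h3
      omega
    obtain ⟨b, hb, hcard⟩ := h1
    obtain ⟨χ, hχ⟩ := ih (F.erase b) (Finset.erase_ssubset hb)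
    obtain ⟨p, hp⟩ : ∃ p, ∀ a ∈ F, f a = b → a = p := by
      by_cases h : ∃ a ∈ F, f a = b
      · obtain ⟨a, ha, hab⟩ := h
        exact ⟨a, fun a' ha' hab' => Finset.card_le_one.1 hcard a'
          (Finset.mem_filter.2 ⟨ha', hab'⟩) a (Finset.mem_filter.2 ⟨ha, hab⟩)⟩
      · exact ⟨b, fun a ha hab => (h ⟨a, ha, hab⟩).elim⟩
    obtain ⟨c, hc1, hc2⟩ := fin3_avoid (χ (f b)) (χ p)
    refine ⟨Function.update χ b c, fun a ha hfa => ?_⟩
    by_cases hab : a = b
    · subst hab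
      rw [Function.update_of_ne hfa, Function.update_self]
      exact hc1.symm
    · rw [Function.update_of_ne hab]
      by_cases hfb : f a = b
      · rw [hfb, Function.update_self, hp a ha hfb]
        exact hc2
      · rw [Function.update_of_ne hfb]
        exact hχ a (Finset.mem_erase.2 ⟨hab, ha⟩) hfa

theorem three_colouring {B : Type*} (f : B → B) :
    ∃ χ : B → Fin 3, ∀ b, f b ≠ b → χ (f b) ≠ χ b := by
  classical
  choose χ hχ using finite_colouring f
  let W : Ultrafilter (Finset B) := Ultrafilter.of atTop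
  have hW : (W : Filter (Finset B)) ≤ atTop := Ultrafilter.of_le _
  have h1 : ∀ b, ∃ c : Fin 3, ∀ᶠ F in (W : Filter (Finset B)), χ F b = c := fun b => by
    have : ∀ᶠ F in (W : Filter (Finset B)), ∃ c ∈ (univ : Set (Fin 3)), χ F b = c :=
      Eventually.of_forall fun F => ⟨_, mem_univ _, rfl⟩
    obtain ⟨c, -, hc⟩ := (Ultrafilter.eventually_exists_mem_iff finite_univ).1 this
    exact ⟨c, hc⟩
  choose ψ hψ using h1
  refine ⟨ψ, fun b hb => ?_⟩
  have h2 : ∀ᶠ F in (W : Filter (Finset B)), b ∈ F :=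
    hW ((eventually_ge_atTop ({b} : Finset B)).mono fun F hF => hF (Finset.mem_singleton_self b))
  obtain ⟨F, hF1, hF2, hF3⟩ := (h2.and ((hψ b).and (hψ (f b)))).exists
  rw [← hF2, ← hF3]
  exact hχ F b hF1 hb

/-- A map that pushes an ultrafilter to itself is the identity almost everywhere. -/
theorem ultra_fix {B : Type*} (D : Ultrafilter B) (f : B → B) (h : D.map f = D) :
    ∀ᶠ b in (D : Filter B), f b = b := by
  obtain ⟨χ, hχ⟩ := three_colouring f
  have h1 : ∀ᶠ b in (D : Filter B), ∃ c ∈ (univ : Set (Fin 3)), χ b = c :=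
    Eventually.of_forall fun b => ⟨_, mem_univ _, rfl⟩
  obtain ⟨c, -, hc⟩ := (Ultrafilter.eventually_exists_mem_iff finite_univ).1 h1
  have h2 : ∀ᶠ b in (D : Filter B), χ (f b) = c := by
    have : ∀ᶠ b in ((D.map f : Ultrafilter B) : Filter B), χ b = c := by rw [h]; exact hc
    exact this
  filter_upwards [hc, h2] with b hb1 hb2
  by_contra hne
  exact hχ b hne (hb2.trans hb1.symm)

/-- A complete ultrafilter selects one index. -/
theorem ultra_select {S ι : Type v} {c : Cardinal.{v}} (W : Ultrafilter S)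
    (hW : CardinalInterFilter (W : Filter S) c) {s : Set ι} (hs : #s < c) {p : S → ι → Prop}
    (h : ∀ᶠ x in (W : Filter S), ∃ i ∈ s, p x i) : ∃ i ∈ s, ∀ᶠ x in (W : Filter S), p x i := by
  by_contra hcon
  push Not at hcon
  have h1 : ∀ᶠ x in (W : Filter S), ∀ i : s, ¬ p x i := by
    refine (eventually_cardinal_forall hs).2 fun i => ?_
    exact hcon i i.2
  obtain ⟨x, ⟨i, hi, hx⟩, hx'⟩ := (h.and h1).exists
  exact hx' ⟨i, hi⟩ hx

/-- Completeness passes from `ν` to `2 ^ ν`. -/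
theorem complete_pow {S : Type v} {ν : Cardinal.{v}} (W : Ultrafilter S)
    (hW : CardinalInterFilter (W : Filter S) (Order.succ ν)) :
    CardinalInterFilter (W : Filter S) (Order.succ (2 ^ ν)) := by
  classical
  refine ⟨fun T hT hTW => ?_⟩
  by_contra hcon
  have hle : #T ≤ #(Set ν.out) := by simpa using Order.lt_succ_iff.1 hT
  obtain ⟨e⟩ := Cardinal.le_def _ _ |>.1 hle
  have h1 : ∀ᶠ x in (W : Filter S), ∃ t : T, x ∉ t.1 := by
    have : (⋂₀ T)ᶜ ∈ W := Ultrafilter.compl_mem_iff_notMem.2 hcon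
    filter_upwards [this] with x hx
    simpa [mem_sInter] using hx
  obtain ⟨x0, t0, -⟩ := h1.exists
  let g : S → T := fun x => if h : ∃ t : T, x ∉ t.1 then h.choose else t0
  have hg : ∀ᶠ x in (W : Filter S), x ∉ (g x).1 := h1.mono fun x hx => by
    simp only [g, dif_pos hx]; exact hx.choose_spec
  let A : Set ν.out := {ξ | ∀ᶠ x in (W : Filter S), ξ ∈ e (g x)}
  have h2 : ∀ᶠ x in (W : Filter S), ∀ ξ : ν.out, (ξ ∈ e (g x) ↔ ξ ∈ A) := by
    refine (eventually_cardinal_forall (c := Order.succ ν) (by simp)).2 fun ξ => ?_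
    by_cases hξ : ξ ∈ A
    · exact (show ∀ᶠ x in (W : Filter S), ξ ∈ e (g x) from hξ).mono fun x hx => by simp [hx, hξ]
    · exact (Ultrafilter.eventually_not.2 hξ).mono fun x hx => by simp [hx, hξ]
  obtain ⟨x1, hx1⟩ := h2.exists
  have h3 : ∀ᶠ x in (W : Filter S), g x = g x1 := h2.mono fun x hx =>
    e.injective (Set.ext fun ξ => (hx ξ).trans (hx1 ξ).symm)
  have h4 : ∀ᶠ x in (W : Filter S), x ∈ (g x1).1 := hTW _ (g x1).2
  obtain ⟨x, hx2, hx3, hx4⟩ := (hg.and (h3.and h4)).exists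
  rw [hx3] at hx2
  exact hx2 hx4

variable {α : Type v} {m : Cardinal.{v}}

/-- At most `m` small sets have a small upper bound. -/
theorem sm_bound (hm : ℵ₀ ≤ m) {T : Type v} (hT : #T ≤ m) (z : T → Sm m α) :
    ∃ w : Sm m α, ∀ t, z t ≤ w := by
  refine ⟨⟨⋃ t, (z t).1, ?_⟩, fun t => subset_iUnion (fun t => (z t).1) t⟩
  refine (mk_iUnion_le_sum_mk).trans ?_
  refine (Cardinal.sum_le_sum _ (fun _ => m) fun t => (z t).2).trans ?_
  rw [Cardinal.sum_const', ← Cardinal.mul_eq_self hm]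
  gcongr
  rw [Cardinal.mul_eq_self hm]

theorem sm_bound₂ (hm : ℵ₀ ≤ m) (z z' : Sm m α) : ∃ w : Sm m α, z ≤ w ∧ z' ≤ w :=
  ⟨⟨z.1 ∪ z'.1, (mk_union_le _ _).trans
    ((add_le_add z.2 z'.2).trans (Cardinal.add_eq_self hm).le)⟩,
    subset_union_left (s := z.1), subset_union_right (s := z.1)⟩

/-- Pigeonhole principle for cofinal sets. -/
theorem cofinal_pigeon (hm : ℵ₀ ≤ m) {T : Type v} (hT : #T ≤ m) {I : Set (Sm m α)}
    (hI : IsCofinal I) (p : Sm m α → T → Prop) (hp : ∀ z ∈ I, ∃ t, p z t) :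
    ∃ t, IsCofinal {z | z ∈ I ∧ p z t} := by
  by_contra hcon
  simp only [IsCofinal, not_exists, not_forall, not_and] at hcon
  choose z hz using hcon
  obtain ⟨w, hw⟩ := sm_bound hm hT z
  obtain ⟨w', hw'I, hww'⟩ := hI w
  obtain ⟨t, ht⟩ := hp w' hw'I
  exact hz t w' ⟨hw'I, ht⟩ ((hw t).trans hww')

theorem AC.ns (hm : ℵ₀ ≤ m) (hlim : Order.IsSuccLimit m) (h : AC m α) : NS m α := by
  intro C I ρ hC hI _ _ htree hcov
  obtain ⟨W, hW, hcone⟩ := h (Order.succ #C) (hlim.succ_lt hC)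
  choose p hpI hp using hI
  have hI : IsCofinal I := fun z => ⟨p z, hpI z, hp z⟩
  have h1 : ∀ z ∈ I, ∃ c, ∀ᶠ z' in (W : Filter (Sm m α)), ρ c z (p z') := fun z hz => by
    obtain ⟨c, -, hc⟩ := ultra_select W hW (s := (univ : Set C)) (by simp)
      (p := fun z' c => ρ c z (p z')) ((hcone z).mono fun z' hz' => by
        obtain ⟨c, hc⟩ := hcov z hz (p z') (hpI z') (hz'.trans (hp z'))
        exact ⟨c, mem_univ _, hc⟩)
    exact ⟨c, hc⟩
  obtain ⟨c, hc⟩ := cofinal_pigeon hm hC.le hI _ h1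
  refine ⟨c, _, fun z hz => hz.1, hc, fun z hz z' hz' hzz' => ?_⟩
  obtain ⟨w, hw1, hw2⟩ := (hz.2.and hz'.2).exists
  exact htree c z z' (p w) hzz' hw1 hw2

theorem AC.strong (hm : ℵ₀ ≤ m) (hlim : Order.IsSuccLimit m) (hα : m < #α) (h : AC m α) :
    IsStrongLimit m := by
  refine ⟨(aleph0_pos.trans_le hm).ne', fun ν hν => ?_⟩
  by_contra hcon
  push Not at hcon
  obtain ⟨W, hW, hcone⟩ := h (Order.succ ν) (hlim.succ_lt hν)
  have h2 := complete_pow W (complete_pow W hW)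
  obtain ⟨K, hK⟩ := Cardinal.le_mk_iff_exists_set.1 (Order.succ_le_of_lt hα)
  have hK2 : #K < Order.succ ((2 : Cardinal.{v}) ^ ((2 : Cardinal.{v}) ^ ν)) := by
    rw [Order.lt_succ_iff, hK]
    exact (Order.succ_le_of_lt (cantor m)).trans (power_le_power_left two_ne_zero hcon)
  obtain ⟨k, -, hk⟩ := ultra_select W h2 hK2 (p := fun z k => k ∉ z.1)
    (Eventually.of_forall fun z => by
      by_contra hz
      push Not at hz
      have := (mk_le_mk_of_subset (show K ⊆ z.1 from hz)).trans z.2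
      rw [hK] at this
      exact (Order.lt_succ m).not_ge this)
  have h3 := hcone ⟨{k}, by simpa using one_le_aleph0.trans hm⟩
  obtain ⟨z, hz1, hz2⟩ := (hk.and h3).exists
  exact hz1 (hz2 (mem_singleton k))

end Pool.Agent.P.MP_f5d68c_lc.Nar

namespace Pool.Agent.P.MP_f5d68c_lc.Nar

/-! The combinatorial core: a slender list has few threads that catch almost every member. -/


/-- Diagonal intersections. -/
theorem NormalFine.diag {S : Type v} {κ n : Cardinal.{v}} {U : Ultrafilter (Set S)}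
    (hU : NormalFine κ n U) {p : S → Set S → Prop}
    (h : ∀ s, ∀ᶠ x in (U : Filter (Set S)), p s x) :
    ∀ᶠ x in (U : Filter (Set S)), ∀ s ∈ x, p s x := by
  classical
  by_contra hcon
  have h1 : ∀ᶠ x in (U : Filter (Set S)), ∃ s ∈ x, ¬ p s x := by
    filter_upwards [Ultrafilter.eventually_not.2 hcon] with x hx
    push Not at hx
    exact hx
  obtain ⟨x0, s0, -⟩ := h1.exists
  let f : Set S → S := fun x => if h : ∃ s ∈ x, ¬ p s x then h.choose else s0
  have hf : ∀ᶠ x in (U : Filter (Set S)), f x ∈ x ∧ ¬ p (f x) x := h1.mono fun x hx => by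
    simp only [f, dif_pos hx]; exact hx.choose_spec
  obtain ⟨s, hs⟩ := hU.normal f (hf.mono fun x hx => hx.1)
  obtain ⟨x, hx1, hx2, hx3⟩ := (hf.and (hs.and (h s))).exists
  rw [hx2] at hx1
  exact hx1.2 hx3

/-- Normality in relational form. -/
theorem NormalFine.press {S : Type v} {κ n : Cardinal.{v}} {U : Ultrafilter (Set S)}
    (hU : NormalFine κ n U) {p : S → Set S → Prop}
    (h : ∀ᶠ x in (U : Filter (Set S)), ∃ s ∈ x, p s x) :
    ∃ s, ∀ᶠ x in (U : Filter (Set S)), p s x := by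
  by_contra hcon
  have h1 : ∀ s, ∀ᶠ x in (U : Filter (Set S)), ¬ p s x := fun s =>
    Ultrafilter.eventually_not.2 fun hh => hcon ⟨s, hh⟩
  obtain ⟨x, ⟨s, hs, hp⟩, hx⟩ := (h.and (hU.diag h1)).exists
  exact hx s hs hp

/-- Almost every `x` is closed under a given function. -/
theorem NormalFine.closed {S : Type v} {κ n : Cardinal.{v}} {U : Ultrafilter (Set S)}
    (hU : NormalFine κ n U) (f : S → S) :
    ∀ᶠ x in (U : Filter (Set S)), ∀ s ∈ x, f s ∈ x :=
  hU.diag fun s => hU.fine (f s)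

variable {α : Type v} {m : Cardinal.{v}}

/-- Almost every `x` is directed. -/
theorem NormalFine.directed (hm : ℵ₀ ≤ m) {κ n : Cardinal.{v}}
    {U : Ultrafilter (Set (Sm m α))} (hU : NormalFine κ n U) :
    ∀ᶠ x in (U : Filter (Set (Sm m α))), ∀ z ∈ x, ∀ z' ∈ x, ∃ w ∈ x, z ≤ w ∧ z' ≤ w :=
  hU.diag fun z => hU.diag fun z' => by
    obtain ⟨w, hw⟩ := sm_bound₂ hm z z'
    exact (hU.fine w).mono fun x hx => ⟨w, hx, hw⟩

theorem NS.apx (hm : ℵ₀ ≤ m) (hsl : IsStrongLimit m) (hns : NS m α) (κ : Cardinal.{v}) :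
    APX κ m α := by
  intro B D g hB _ hg
  let C : Set (Set B) := {Y | Y ∈ D}
  let ρ : C → Sm m α → Sm m α → Prop := fun Y z z' =>
    z ≤ z' ∧ ∀ k ∈ Y.1, g z' k ∩ z.1 = g z k
  have hC : #C < m := (mk_set_le C).trans_lt (by rw [mk_set]; exact hsl.isStrongPrelimit hB)
  obtain ⟨Y, J, -, hJ, hY⟩ := hns C univ ρ hC (fun z => ⟨z, mem_univ _, le_rfl⟩)
    (fun _ _ _ h => h.1)
    (fun Y z z' z'' h1 h2 => ⟨h1.1.trans h2.1, fun k hk => by
      rw [← h1.2 k hk, ← h2.2 k hk, inter_assoc,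
        inter_eq_right.2 (show z.1 ⊆ z'.1 from h1.1)]⟩)
    (fun Y z z' z'' h0 h1 h2 => ⟨h0, fun k hk => by
      rw [← h1.2 k hk, ← h2.2 k hk, inter_assoc,
        inter_eq_right.2 (show z.1 ⊆ z'.1 from h0)]⟩)
    (fun z _ z' _ hzz' => ⟨⟨_, hg z z' hzz'⟩, hzz', fun k hk => hk⟩)
  let G : B → Set α := fun k => ⋃ z ∈ J, g z k
  have hG : ∀ k ∈ Y.1, ∀ z ∈ J, G k ∩ z.1 = g z k := fun k hk z hz => by
    apply Subset.antisymm
    · rintro a ⟨ha, haz⟩
      obtain ⟨z1, hz1, ha1⟩ := mem_iUnion₂.1 ha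
      obtain ⟨z2, h2, h2'⟩ := sm_bound₂ hm z z1
      obtain ⟨z3, hz3, h3⟩ := hJ z2
      rw [← (hY z1 hz1 z3 hz3 (h2'.trans h3)).2 k hk] at ha1
      rw [← (hY z hz z3 hz3 (h2.trans h3)).2 k hk]
      exact ⟨ha1.1, haz⟩
    · intro a ha
      refine ⟨mem_iUnion₂.2 ⟨z, hz, ha⟩, ?_⟩
      rw [← (hY z hz z hz le_rfl).2 k hk] at ha
      exact ha.2
  refine ⟨G, fun z => ?_⟩
  obtain ⟨z3, hz3, h3⟩ := hJ z
  filter_upwards [hg z z3 h3, Y.2] with k hk1 hk2
  rw [← hk1, ← hG k hk2 z3 hz3, inter_assoc, inter_eq_right.2 (show z.1 ⊆ z3.1 from h3)]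

theorem core {κ : Cardinal.{v}} (hsing : m.IsSingular) (hsl : IsStrongLimit m)
    (hκ : m.ord.cof < κ) (hapx : APX κ m α) {Ω : Type v}
    {U : Ultrafilter Ω} (hU : CardinalInterFilter (U : Filter Ω) κ) (d : Ω → Set α)
    (h : ∀ z : Sm m α, ∃ w : Set (Set α), #w ≤ m ∧ ∀ᶠ x in (U : Filter Ω), d x ∩ z.1 ∈ w) :
    ∃ e : Ω → Set α, #(range e) ≤ m ∧
      ∀ z : Sm m α, ∀ᶠ x in (U : Filter Ω), d x ∩ z.1 = e x ∩ z.1 := by
  classical
  have hm : ℵ₀ ≤ m := hsing.aleph0_le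
  choose w hwm hw using h
  let B : Type v := m.ord.ToType
  have hB : #B = m := by simp [B]
  have hBne : Nonempty B := by
    rw [← Cardinal.mk_ne_zero_iff, hB]; exact (aleph0_pos.trans_le hm).ne'
  have hidx : ∀ z, ∃ i : Set α → B, InjOn i (w z) := fun z => by
    obtain ⟨e⟩ := (Cardinal.le_def _ _).1 ((hwm z).trans hB.ge)
    refine ⟨fun y => if hy : y ∈ w z then e ⟨y, hy⟩ else Classical.arbitrary B, ?_⟩
    intro y hy y' hy' hyy'
    simp only [dif_pos hy, dif_pos hy'] at hyy'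
    exact congrArg Subtype.val (e.injective hyy')
  choose idx hidx using hidx
  let g : Sm m α → B → Set α := fun z => Function.invFunOn (idx z) (w z)
  have hg : ∀ z, ∀ y ∈ w z, g z (idx z y) = y := fun z y hy =>
    (hidx z).leftInvOn_invFunOn hy
  let b : Sm m α → Ω → B := fun z x => idx z (d x ∩ z.1)
  have hgb : ∀ z, ∀ᶠ x in (U : Filter Ω), g z (b z x) = d x ∩ z.1 := fun z =>
    (hw z).mono fun x hx => hg z _ hx
  let D : Sm m α → Ultrafilter B := fun z => U.map (b z)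
  -- every `D z` lives on a bounded set
  obtain ⟨s, hs, hscard⟩ := Order.exists_cof_eq B
  have hD1 : ∀ z, ∃ i : B, Iic i ∈ D z := fun z => by
    obtain ⟨i, -, hi⟩ := ultra_select U hU (s := s)
      (by rw [hscard, Ordinal.cof_toType]; exact hκ)
      (p := fun x i => b z x ≤ i) (Eventually.of_forall fun x => hs _)
    exact ⟨i, hi⟩
  have huniv : IsCofinal (Set.univ : Set (Sm m α)) := fun z => ⟨z, mem_univ _, le_rfl⟩
  obtain ⟨i, hi⟩ := cofinal_pigeon hm hB.le huniv (fun z i => Iic i ∈ D z) fun z _ => hD1 z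
  have hIic : #(Iic i) < m := by
    rw [← Iio_insert]
    refine (mk_insert_le).trans_lt (Cardinal.add_lt_of_lt hm ?_ (one_lt_aleph0.trans_le hm))
    simpa [B] using mk_Iio_lt i
  have hP1 : #(Set (Iic i)) < m := by rw [mk_set]; exact hsl.isStrongPrelimit hIic
  have hP2 : #(Set (Set (Iic i))) < m := by rw [mk_set]; exact hsl.isStrongPrelimit hP1
  obtain ⟨F, hF⟩ := cofinal_pigeon hm hP2.le hi
    (fun z (F : Set (Set (Iic i))) => ∀ Y, Y ∈ F ↔ Subtype.val '' Y ∈ D z)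
    fun z _ => ⟨{Y | Subtype.val '' Y ∈ D z}, fun Y => Iff.rfl⟩
  set I : Set (Sm m α) := {z | z ∈ {z | z ∈ Set.univ ∧ Iic i ∈ D z} ∧
    ∀ Y, Y ∈ F ↔ Subtype.val '' Y ∈ D z} with hI
  have hDI : ∀ z ∈ I, ∀ A : Set B, A ∈ D z ↔ Subtype.val ⁻¹' A ∈ F := fun z hz A => by
    rw [hz.2, Subtype.image_preimage_coe]
    exact ⟨fun hA => inter_mem hz.1.2 hA, fun hA => mem_of_superset hA inter_subset_right⟩
  have hDeq : ∀ z ∈ I, ∀ z' ∈ I, D z = D z' := fun z hz z' hz' =>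
    Ultrafilter.ext fun A => (hDI z hz A).trans (hDI z' hz' A).symm
  -- the transition maps are the identity almost everywhere
  have hid : ∀ z ∈ I, ∀ z' ∈ I, z ≤ z' →
      ∀ᶠ x in (U : Filter Ω), b z' x = b z x := fun z hz z' hz' hzz' => by
    let π : B → B := fun k => idx z (g z' k ∩ z.1)
    have h1 : ∀ᶠ x in (U : Filter Ω), π (b z' x) = b z x :=
      (hgb z').mono fun x hx => by
        change idx z (g z' (b z' x) ∩ z.1) = idx z (d x ∩ z.1)
        rw [hx, inter_assoc, inter_eq_right.2 (show z.1 ⊆ z'.1 from hzz')]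
    have h2 : (D z').map π = D z' := by
      conv_rhs => rw [← hDeq z hz z' hz']
      refine Ultrafilter.coe_injective ?_
      change Filter.map π (Filter.map (b z') U) = Filter.map (b z) U
      rw [Filter.map_map]
      exact Filter.map_congr h1
    have h3 : ∀ᶠ x in (U : Filter Ω), π (b z' x) = b z' x := ultra_fix (D z') π h2
    filter_upwards [h1, h3] with x hx1 hx3
    rw [← hx1, hx3]
  obtain ⟨z0, hz0, -⟩ := hF ⟨∅, by simp⟩
  have hp : ∀ z : Sm m α, ∃ z' ∈ I, z ≤ z' ∧ z0 ≤ z' := fun z => by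
    obtain ⟨z2, h2, h2'⟩ := sm_bound₂ hm z z0
    obtain ⟨z3, hz3, h3⟩ := hF z2
    exact ⟨z3, hz3, h2.trans h3, h2'.trans h3⟩
  choose p hpI hp hp0 using hp
  have hkey : ∀ z, ∀ᶠ x in (U : Filter Ω),
      g (p z) (b z0 x) ∩ z.1 = d x ∩ z.1 := fun z => by
    filter_upwards [hid z0 hz0 (p z) (hpI z) (hp0 z), hgb (p z)] with x hx1 hx2
    rw [← hx1, hx2, inter_assoc, inter_eq_right.2 (show z.1 ⊆ (p z).1 from hp z)]
  have hrange : range (Subtype.val : Iic i → B) ∈ D z0 := by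
    rw [Subtype.range_coe]; exact hz0.1.2
  let D0 : Ultrafilter (Iic i) := (D z0).comap Subtype.val_injective hrange
  have hD0 : ∀ P : B → Prop, (∀ᶠ k in (D0 : Filter (Iic i)), P k.1) ↔
      ∀ᶠ x in (U : Filter Ω), P (b z0 x) := fun P => by
    have h1 : Filter.map (Subtype.val : Iic i → B) D0 = D z0 := Filter.map_comap_of_mem hrange
    have h2 : (∀ᶠ k in Filter.map (Subtype.val : Iic i → B) D0, P k) ↔
        ∀ᶠ k in (D z0 : Filter B), P k := by rw [h1]
    exact h2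
  have hcomp : CardinalInterFilter (D0 : Filter (Iic i)) κ := by
    change CardinalInterFilter (Filter.comap Subtype.val (Filter.map (b z0) U)) κ
    infer_instance
  obtain ⟨G, hG⟩ := hapx (Iic i) D0 (fun z k => g (p z) k.1 ∩ z.1) hIic hcomp
    (fun z z' hzz' => (hD0 fun k => g (p z') k ∩ z'.1 ∩ z.1 = g (p z) k ∩ z.1).2 (by
      filter_upwards [hkey z, hkey z'] with x hx1 hx2
      rw [hx1, hx2, inter_assoc, inter_eq_right.2 (show z.1 ⊆ z'.1 from hzz')]))
  let G' : B → Set α := fun k => if hk : k ∈ Iic i then G ⟨k, hk⟩ else ∅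
  refine ⟨fun x => G' (b z0 x), ?_, fun z => ?_⟩
  · exact (mk_le_mk_of_subset (range_comp_subset_range (b z0) G')).trans (mk_range_le.trans hB.le)
  · have h1 := (hD0 fun k => G' k ∩ z.1 = g (p z) k ∩ z.1).1 ((hG z).mono fun k hk => by
      simp only [G', dif_pos k.2]; exact hk)
    filter_upwards [h1, hkey z] with x hx1 hx2
    rw [hx1, hx2]

end Pool.Agent.P.MP_f5d68c_lc.Nar
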