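import Pool.Agent.P.MP_f5d68c_lc.Defs

/-! Large cardinal definitions for guessing models at the successor of a singular cardinal. -/

open Cardinal Filter Set

universe u v

namespace Pool.Agent.P.MP_f5d68c_lc.Nar

/-- The subsets of `α` of size at most `m`, ordered by inclusion. -/
abbrev Sm (m : Cardinal.{v}) (α : Type v) : Type v := {z : Set α // #z ≤ m}

/-- `U` is a `κ`-complete normal fine ultrafilter on the subsets of `S` of size less than `n`. -/
structure NormalFine {S : Type v} (κ n : Cardinal.{v}) (U : Ultrafilter (Set S)) : Prop where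
  small : ∀ᶠ x : Set S in (U : Filter (Set S)), #x < n
  fine : ∀ s : S, ∀ᶠ x in (U : Filter (Set S)), s ∈ x
  normal : ∀ f : Set S → S, (∀ᶠ x in (U : Filter (Set S)), f x ∈ x) →
    ∃ s, ∀ᶠ x in (U : Filter (Set S)), f x = s
  complete : CardinalInterFilter (U : Filter (Set S)) κ

/-- Narrow system property (levels with one node): every family of fewer than `m` transitive
tree-like relations that covers all pairs `z ≤ z'` of a cofinal set `I` has a member that holds
for all such pairs of a cofinal subset of `I`. -/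
def NS (m : Cardinal.{v}) (α : Type v) : Prop :=
  ∀ (C : Type v) (I : Set (Sm m α)) (ρ : C → Sm m α → Sm m α → Prop), #C < m → IsCofinal I →
    (∀ c z z', ρ c z z' → z ≤ z') →
    (∀ c z z' z'', ρ c z z' → ρ c z' z'' → ρ c z z'') →
    (∀ c z z' z'', z ≤ z' → ρ c z z'' → ρ c z' z'' → ρ c z z') →
    (∀ z ∈ I, ∀ z' ∈ I, z ≤ z' → ∃ c, ρ c z z') →
    ∃ c, ∃ J ⊆ I, IsCofinal J ∧ ∀ z ∈ J, ∀ z' ∈ J, z ≤ z' → ρ c z z'

/-- Approximation property of ultrapowers: for every `κ`-complete ultrafilter `D` on a set of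
size less than `m`, every family `g z` (`z ⊆ α` of size at most `m`) of functions into the subsets
of `α` that is coherent modulo `D` is the family of traces of one function modulo `D`. -/
def APX (κ m : Cardinal.{v}) (α : Type v) : Prop :=
  ∀ (B : Type v) (D : Ultrafilter B) (g : Sm m α → B → Set α), #B < m →
    CardinalInterFilter (D : Filter B) κ →
    (∀ z z', z ≤ z' → ∀ᶠ b in (D : Filter B), g z' b ∩ z.1 = g z b) →
    ∃ G : B → Set α, ∀ z, ∀ᶠ b in (D : Filter B), G b ∩ z.1 = g z b

/-- The union of a family `x` of small subsets of `R`. -/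
def hull {R : ZFSet.{u}} {m : Cardinal.{u + 1}} (x : Set (Sm m R)) : Set ZFSet.{u} :=
  {a | ∃ z ∈ x, ∃ h : a ∈ R, (⟨a, h⟩ : R) ∈ z.1}

end Pool.Agent.P.MP_f5d68c_lc.Nar
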