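import Pool.Agent.P.MP_f5d68c_lc.Nar.Comb

open Cardinal Filter Set

universe u v

namespace Pool.Agent.P.MP_f5d68c_lc.Nar

/-! From the combinatorial core to guessing models. -/


theorem Suitable.trans {R : ZFSet.{u}} (h : Suitable R) : R.IsTransitive := by
  rcases h with ⟨a, rfl⟩ | ⟨θ, -, h⟩
  · exact ZFSet.isTransitive_vonNeumann a
  · intro x hx y hy
    obtain ⟨t, ht, hxt, hc⟩ := (h x).1 hx
    exact (h y).2 ⟨t, ht, ht y (hxt hy), hc⟩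

theorem Suitable.sub {R : ZFSet.{u}} (h : Suitable R) {x y : ZFSet.{u}} (hy : y ∈ R)
    (hxy : x ⊆ y) : x ∈ R := by
  rcases h with ⟨a, rfl⟩ | ⟨θ, -, h⟩
  · exact ZFSet.mem_vonNeumann_of_subset hxy hy
  · obtain ⟨t, ht, hyt, hc⟩ := (h y).1 hy
    exact (h x).2 ⟨t, ht, fun z hz => hyt (hxy hz), hc⟩

theorem singular_lift {μ : Cardinal.{u}} (h : μ.IsSingular) : (lift.{v} μ).IsSingular := by
  refine ⟨by simpa using h.aleph0_le, ?_⟩
  rw [← lift_ord, ← Ordinal.lift_cof]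
  exact fun hh => h.cof_ord_lt.ne (lift_injective hh)

theorem strong_lift {μ : Cardinal.{u}} (h : IsStrongLimit μ) : IsStrongLimit (lift.{v} μ) := by
  refine ⟨by simpa using h.ne_zero, fun c hc => ?_⟩
  obtain ⟨c', rfl⟩ := Cardinal.mem_range_lift_of_le hc.le
  rw [← lift_two_power, lift_lt]
  exact h.isStrongPrelimit (lift_lt.1 hc)

theorem singular_limit {m : Cardinal.{v}} (h : m.IsSingular) : Order.IsSuccLimit m := by
  refine ⟨not_isMin_of_lt h.pos, Order.isSuccPrelimit_of_succ_ne fun b hb => ?_⟩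
  by_cases hb' : ℵ₀ ≤ b
  · exact h.not_isRegular (hb ▸ isRegular_succ hb')
  · have h1 : Order.succ b < ℵ₀ := isSuccLimit_aleph0.succ_lt (not_le.1 hb')
    exact h.aleph0_le.not_gt (hb ▸ h1)

variable {R : ZFSet.{u}} {μ : Cardinal.{u}}

/-- The trace of a set of elements of `R` on a set `X`. -/
noncomputable def tr (X : ZFSet.{u}) (A : Set R) : ZFSet.{u} := X.sep (· ∈ Subtype.val '' A)

theorem mem_tr {X y : ZFSet.{u}} {A : Set R} : y ∈ tr X A ↔ y ∈ X ∧ y ∈ Subtype.val '' A :=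
  ZFSet.mem_sep

theorem tr_sub {X : ZFSet.{u}} {A : Set R} : tr X A ⊆ X := ZFSet.sep_subset

theorem card_le_of_sub {Z : ZFSet.{u}} {A : Set R} (h : ∀ y ∈ Z, y ∈ Subtype.val '' A)
    (hA : #A ≤ lift.{u + 1} μ) : Z.card ≤ μ := by
  rw [← Cardinal.lift_le.{u + 1}, ← ZFSet.cardinalMk_coe_sort]
  exact (mk_le_mk_of_subset (s := (Z : Set ZFSet.{u})) h).trans (mk_image_le.trans hA)

theorem mk_mem_le {Z : ZFSet.{u}} (hZ : Z.card ≤ μ) :
    #{y : R | y.1 ∈ Z} ≤ lift.{u + 1} μ := by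
  have h1 : #{y : R | y.1 ∈ Z} ≤ #(Z : Set ZFSet.{u}) :=
    mk_preimage_of_injective _ _ Subtype.val_injective
  refine h1.trans ?_
  change #Z ≤ _
  rw [ZFSet.cardinalMk_coe_sort]
  exact lift_le.2 hZ

theorem big (hR : Suitable R) (hμR : (Order.succ μ).ord.toZFSet ∈ R) : lift.{u + 1} μ < #R := by
  rw [ZFSet.cardinalMk_coe_sort, lift_lt, ← Order.succ_le_iff]
  simpa using ZFSet.card_mono (hR.trans _ hμR)

theorem ae_elem (hμ : ℵ₀ ≤ μ) (hbig : lift.{u + 1} μ < #R) {κ n : Cardinal.{u + 1}}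
    {U : Ultrafilter (Set (Sm (lift.{u + 1} μ) R))} (hU : NormalFine κ n U)
    (L : FirstOrder.Language.{0, 0}) [L.Structure R] (hL : L.card ≤ ℵ₀) :
    ∀ᶠ x in (U : Filter (Set (Sm (lift.{u + 1} μ) R))),
      ∃ E : L.ElementarySubstructure R, (E : Set R) = ⋃ z ∈ x, z.1 := by
  have hm : ℵ₀ ≤ lift.{u + 1} μ := by simpa using hμ
  have h1 : ∀ z : Sm (lift.{u + 1} μ) R, ∃ E : L.ElementarySubstructure R,
      z.1 ⊆ E ∧ #(E : Set R) ≤ lift.{u + 1} μ := fun z => by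
    obtain ⟨E, hE1, hE2⟩ := L.exists_elementarySubstructure_card_eq z.1 (lift.{u + 1} μ) hm
      (lift_le.2 z.2) (by
        refine (lift_le.2 hL).trans ?_
        simpa using hμ) (lift_le.2 hbig.le)
    exact ⟨E, hE1, (lift_injective hE2).le⟩
  choose E hE1 hE2 using h1
  filter_upwards [hU.closed fun z => ⟨E z, hE2 z⟩, hU.directed hm, hU.fine ⟨∅, by simp⟩]
    with x hx1 hx2 hx3
  have h2 : ∀ A : Finset R, (A : Set R) ⊆ ⋃ z ∈ x, z.1 → ∃ z ∈ x, (A : Set R) ⊆ z.1 := by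
    classical
    intro A
    induction A using Finset.induction_on with
    | empty => exact fun _ => ⟨_, hx3, by simp⟩
    | insert a A _ ih =>
      intro h
      rw [Finset.coe_insert] at h ⊢
      obtain ⟨z, hz, hAz⟩ := ih ((subset_insert _ _).trans h)
      obtain ⟨z', hz', haz'⟩ := mem_iUnion₂.1 (h (mem_insert _ _))
      obtain ⟨w, hw, h3, h4⟩ := hx2 z hz z' hz'
      exact ⟨w, hw, insert_subset (h4 haz') (hAz.trans h3)⟩
  have h3 : L.MeetsDefinable (⋃ z ∈ x, z.1 : Set R) := fun D hD hdef => by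
    obtain ⟨A, hA, hdefA⟩ := Set.definable_iff_finitely_definable.1 hdef
    obtain ⟨z, hz, hAz⟩ := h2 A hA
    obtain ⟨y, hy1, hy2⟩ := (E z).meetsDefinable D hD (hdefA.mono (hAz.trans (hE1 z)))
    exact ⟨y, hy1, mem_iUnion₂.2 ⟨_, hx1 z hz, hy2⟩⟩
  exact ⟨h3.toElementarySubstructure, h3.closure_eq_self⟩

/-- Almost every hull contains the elements of its small members. -/
theorem ae_small (hμ : ℵ₀ ≤ μ) {κ n : Cardinal.{u + 1}}
    {U : Ultrafilter (Set (Sm (lift.{u + 1} μ) R))} (hU : NormalFine κ n U) :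
    ∀ᶠ x in (U : Filter (Set (Sm (lift.{u + 1} μ) R))), ∀ w ∈ x, ∃ z ∈ x,
      ∀ Z ∈ w.1, Z.1.card ≤ μ → ∀ y : R, y.1 ∈ Z.1 → y ∈ z.1 := by
  have hm : ℵ₀ ≤ lift.{u + 1} μ := by simpa using hμ
  refine hU.diag fun w => ?_
  obtain ⟨z, hz⟩ := sm_bound (α := R) hm (T := {Z : R | Z ∈ w.1 ∧ Z.1.card ≤ μ})
    ((mk_le_mk_of_subset fun Z hZ => hZ.1).trans w.2)
    fun Z => ⟨{y : R | y.1 ∈ Z.1.1}, mk_mem_le Z.2.2⟩
  exact (hU.fine z).mono fun x hx => ⟨z, hx, fun Z hZ hc y hy => hz ⟨Z, hZ, hc⟩ hy⟩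

theorem ae_kappa (hμ : ℵ₀ ≤ μ) (hR : Suitable R) (hμR : (Order.succ μ).ord.toZFSet ∈ R)
    {κ n : Cardinal.{u + 1}} (hn : n ≤ Order.succ (lift.{u + 1} μ))
    {U : Ultrafilter (Set (Sm (lift.{u + 1} μ) R))} (hU : NormalFine κ n U) :
    ∀ᶠ x in (U : Filter (Set (Sm (lift.{u + 1} μ) R))),
      IsKappa (Subtype.val '' ⋃ z ∈ x, z.1) (Order.succ μ).ord := by
  have hm : ℵ₀ ≤ lift.{u + 1} μ := by simpa using hμ
  filter_upwards [ae_small hμ hU, hU.small,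
    hU.fine ⟨{⟨_, hμR⟩}, by simpa using one_le_aleph0.trans hm⟩] with x hx1 hx2 hx3
  refine ⟨⟨⟨⟨_, hμR⟩, mem_iUnion₂.2 ⟨_, hx3, mem_singleton _⟩, rfl⟩, fun h => ?_⟩, ?_⟩
  · obtain ⟨w, hw⟩ := sm_bound hm (T := x) (Order.lt_succ_iff.1 (hx2.trans_le hn)) fun z => z.1
    have h1 := card_le_of_sub (Z := (Order.succ μ).ord.toZFSet) (A := w.1) (fun y hy => by
      obtain ⟨y', hy', rfl⟩ := (inter_eq_right.1 h) hy
      obtain ⟨z, hz, hyz⟩ := mem_iUnion₂.1 hy'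
      exact ⟨y', hw ⟨z, hz⟩ hyz, rfl⟩) w.2
    rw [Ordinal.card_toZFSet, card_ord] at h1
    exact (Order.lt_succ μ).not_ge h1
  · rintro a ⟨⟨Z, hZ, hZa⟩, ha⟩
    by_contra hlt
    rw [not_le, lt_ord, Order.lt_succ_iff] at hlt
    obtain ⟨w, hw, hZw⟩ := mem_iUnion₂.1 hZ
    obtain ⟨z, hz, hz'⟩ := hx1 w hw
    refine ha (inter_eq_right.2 fun y hy => ?_)
    have hy' : y ∈ Z.1 := by rw [hZa]; exact hy
    exact ⟨⟨y, hR.trans _ Z.2 hy'⟩, mem_iUnion₂.2 ⟨z, hz, hz' Z hZw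
      (by rw [hZa, Ordinal.card_toZFSet]; exact hlt) _ hy'⟩, rfl⟩

theorem ae_guess (hμ : μ.IsSingular) (hsl : IsStrongLimit (lift.{u + 1} μ)) (hR : Suitable R)
    {κ n : Cardinal.{u + 1}} (hκ : (lift.{u + 1} μ).ord.cof < κ)
    (hapx : ∀ w : Sm (lift.{u + 1} μ) R, ∃ Y : ZFSet.{u}, Y ⊆ R ∧ (∀ X ∈ w.1, X.1 ⊆ Y) ∧
      APX κ (lift.{u + 1} μ) Y)
    {U : Ultrafilter (Set (Sm (lift.{u + 1} μ) R))} (hU : NormalFine κ n U) :
    ∀ᶠ x in (U : Filter (Set (Sm (lift.{u + 1} μ) R))),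
      Gs R (Subtype.val '' ⋃ z ∈ x, z.1) (Order.succ μ) := by
  have hm : ℵ₀ ≤ lift.{u + 1} μ := by simpa using hμ.aleph0_le
  by_contra hcon
  have h0 : ∀ x : Set (Sm (lift.{u + 1} μ) R), ∃ X d : ZFSet.{u},
      ¬ Gs R (Subtype.val '' ⋃ z ∈ x, z.1) (Order.succ μ) →
      X ∈ Subtype.val '' (⋃ z ∈ x, z.1) ∧ d ⊆ X ∧
        (∀ Z ∈ Subtype.val '' (⋃ z ∈ x, z.1), Z ⊆ R → Z.card < Order.succ μ →
          d ∩ Z ∈ Subtype.val '' (⋃ z ∈ x, z.1)) ∧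
        ¬ ∃ e ∈ Subtype.val '' (⋃ z ∈ x, z.1), e ⊆ X ∧
          (d : Set ZFSet.{u}) ∩ Subtype.val '' (⋃ z ∈ x, z.1) =
            (e : Set ZFSet.{u}) ∩ Subtype.val '' (⋃ z ∈ x, z.1) := fun x => by
    by_cases h : Gs R (Subtype.val '' ⋃ z ∈ x, z.1) (Order.succ μ)
    · exact ⟨∅, ∅, fun h' => (h' h).elim⟩
    · simp only [Gs, not_forall] at h
      obtain ⟨X, hX, d, -, hdX, happ, hng⟩ := h
      exact ⟨X, d, fun _ => ⟨hX, hdX, happ, hng⟩⟩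
  choose X d hXd using h0
  have h1 := (Ultrafilter.eventually_not.2 hcon).mono hXd
  obtain ⟨w0, hw0⟩ := hU.press (p := fun w x => X x ∈ Subtype.val '' w.1) (h1.mono fun x hx => by
    obtain ⟨y, hy, hyX⟩ := hx.1
    obtain ⟨z, hz, hyz⟩ := mem_iUnion₂.1 hy
    exact ⟨z, hz, y, hyz, hyX⟩)
  obtain ⟨Y, hYR, hY0, hY⟩ := hapx w0
  have hXY : ∀ᶠ x in (U : Filter (Set (Sm (lift.{u + 1} μ) R))), X x ∈ R ∧ X x ⊆ Y :=
    hw0.mono fun x ⟨X', hX', hx⟩ => hx ▸ ⟨X'.2, hY0 X' hX'⟩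
  have htr : ∀ T : Set (Set Y), #T ≤ lift.{u + 1} μ →
      ∀ᶠ x in (U : Filter (Set (Sm (lift.{u + 1} μ) R))), ∀ e ∈ T,
        tr (X x) e ∈ Subtype.val '' (⋃ z ∈ x, z.1) := fun T hT => by
    let f : R → Set Y → R := fun Z e => ⟨tr Z.1 e, hR.sub Z.2 tr_sub⟩
    have hc : #(image2 f w0.1 T) ≤ lift.{u + 1} μ :=
      mk_image2_le.trans ((mul_le_mul' w0.2 hT).trans (Cardinal.mul_eq_self hm).le)
    filter_upwards [hU.fine ⟨_, hc⟩, hw0] with x hx1 hx2 e he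
    obtain ⟨Z, hZ, hZX⟩ := hx2
    exact ⟨f Z e, mem_iUnion₂.2 ⟨_, hx1, mem_image2_of_mem hZ he⟩, by rw [← hZX]⟩
  obtain ⟨e, hT, hTx⟩ := core (singular_lift hμ) hsl hκ hY hU.complete
    (fun x => {y : Y | y.1 ∈ d x}) fun z => by
      obtain ⟨w, hw⟩ := hU.press (p := fun w x => d x ∩ tr (X x) z.1 ∈ Subtype.val '' w.1) (by
        filter_upwards [h1, htr {z.1} (by simpa using one_le_aleph0.trans hm), hXY]
          with x hx1 hx2 hx3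
        obtain ⟨y, hy, hyX⟩ := hx1.2.2.1 _ (hx2 z.1 (mem_singleton _))
          (fun y hy => hR.trans _ hx3.1 (tr_sub hy))
          (Order.lt_succ_iff.2 (card_le_of_sub (fun y hy => (mem_tr.1 hy).2) z.2))
        obtain ⟨w, hw, hyw⟩ := mem_iUnion₂.1 hy
        exact ⟨w, hw, y, hyw, hyX⟩)
      refine ⟨(fun e : R => {y : Y | y.1 ∈ e.1}) '' w.1, mk_image_le.trans w.2, ?_⟩
      filter_upwards [hw, h1] with x hx1 hx2
      obtain ⟨e, he, hed⟩ := hx1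
      refine ⟨e, he, Set.ext fun y => ?_⟩
      simp only [hed, mem_ofPred_eq, ZFSet.mem_inter, mem_tr, mem_inter_iff]
      exact ⟨fun h => ⟨h.1, (Subtype.val_injective.mem_set_image).1 h.2.2⟩,
        fun h => ⟨h.1, hx2.2.1 h.1, mem_image_of_mem _ h.2⟩⟩
  let ι : Y → R := fun y => ⟨y.1, hYR y.2⟩
  have hι : Function.Injective ι := fun y y' h =>
    Subtype.ext (show (ι y).1 = (ι y').1 from congrArg Subtype.val h)
  have h3 := hU.diag fun z : Sm (lift.{u + 1} μ) R =>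
    hTx ⟨ι ⁻¹' z.1, (mk_preimage_of_injective _ _ hι).trans z.2⟩
  obtain ⟨x, hx1, hx2, hx3, hx4⟩ := (h1.and (h3.and ((htr _ hT).and hXY))).exists
  refine hx1.2.2.2 ⟨tr (X x) (e x), hx3 _ (mem_range_self x), tr_sub, Set.ext fun y => ?_⟩
  refine and_congr_left ?_
  rintro ⟨y, hy, rfl⟩
  obtain ⟨z, hz, hyz⟩ := mem_iUnion₂.1 hy
  simp only [SetLike.mem_coe, mem_tr]
  have h4 : ∀ hy : y.1 ∈ Y, (y.1 ∈ d x ↔ (⟨y.1, hy⟩ : Y) ∈ e x) := fun hy => by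
    have h2 := Set.ext_iff.1 (hx2 z hz) ⟨y.1, hy⟩
    have h5 : (⟨y.1, hy⟩ : Y) ∈ ι ⁻¹' z.1 := hyz
    simpa only [mem_inter_iff, mem_ofPred_eq, h5, and_true] using h2
  refine ⟨fun h => ⟨hx1.2.1 h, _, (h4 (hx4.2 (hx1.2.1 h))).1 h, rfl⟩, ?_⟩
  rintro ⟨h, y', hy', hyy'⟩
  refine (h4 (hx4.2 h)).2 ?_
  have h6 : (⟨y.1, hx4.2 h⟩ : Y) = y' := Subtype.ext hyy'.symm
  rw [h6]
  exact hy'

theorem ae_good (hμ : μ.IsSingular) (hsl : IsStrongLimit (lift.{u + 1} μ)) (hR : Suitable R)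
    (hμR : (Order.succ μ).ord.toZFSet ∈ R)
    {κ n : Cardinal.{u + 1}} (hκ : lift.{u + 1} μ.ord.cof < κ)
    (hn : n ≤ Order.succ (lift.{u + 1} μ))
    (hapx : ∀ w : Sm (lift.{u + 1} μ) R, ∃ Y : ZFSet.{u}, Y ⊆ R ∧ (∀ X ∈ w.1, X.1 ⊆ Y) ∧
      APX κ (lift.{u + 1} μ) Y)
    {U : Ultrafilter (Set (Sm (lift.{u + 1} μ) R))} (hU : NormalFine κ n U)
    (L : FirstOrder.Language.{0, 0}) [L.Structure R] (hL : L.card ≤ ℵ₀) :
    ∀ᶠ x in (U : Filter (Set (Sm (lift.{u + 1} μ) R))), GoodHull L R μ x := by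
  rw [Ordinal.lift_cof, lift_ord] at hκ
  filter_upwards [ae_elem hμ.aleph0_le (big hR hμR) hU L hL, ae_kappa hμ.aleph0_le hR hμR hn hU,
    ae_guess hμ hsl hR hκ hapx hU] with x hx1 hx2 hx3
  exact ⟨hx1, hx2, hx3⟩

theorem exists_cover (hμ : ℵ₀ ≤ μ) (hR : Suitable R) {l : Cardinal.{u}} (hμl : μ ≤ l)
    (hl : ∀ X ∈ R, X.card ≤ l) (w : Sm (lift.{u + 1} μ) R) :
    ∃ Y : ZFSet.{u}, Y ⊆ R ∧ (∀ X ∈ w.1, X.1 ⊆ Y) ∧ Y.card ≤ l := by
  refine ⟨R.sep fun y => ∃ X' ∈ w.1, y ∈ X'.1, ZFSet.sep_subset, fun X hX y hy =>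
    ZFSet.mem_sep.2 ⟨hR.trans _ X.2 hy, X, hX, hy⟩, ?_⟩
  have hl0 : ℵ₀ ≤ lift.{u + 1} l := by simpa using hμ.trans hμl
  obtain ⟨z, hz⟩ := sm_bound (α := R) hl0 (T := w.1) (w.2.trans (lift_le.2 hμl))
    fun Z => ⟨{y : R | y.1 ∈ Z.1.1}, mk_mem_le (hl _ Z.1.2)⟩
  refine card_le_of_sub (A := z.1) (fun y hy => ?_) z.2
  obtain ⟨hyR, X', hX', hyX'⟩ := ZFSet.mem_sep.1 hy
  exact ⟨⟨y, hyR⟩, hz ⟨X', hX'⟩ hyX', rfl⟩

end Pool.Agent.P.MP_f5d68c_lc.Nar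

namespace Pool.Agent.P.MP_f5d68c_lc.Nar

/-! The converse: stationarily many guessing unions give the approximation property of
ultrapowers. -/


theorem bounded_funs {m : Cardinal.{v}} (hm : ℵ₀ ≤ m) (hsl : IsStrongLimit m) {B : Type v}
    (hB : #B < m) : #{f : B → m.ord.ToType | ∃ i, ∀ b, f b ≤ i} ≤ m := by
  have h1 : {f : B → m.ord.ToType | ∃ i, ∀ b, f b ≤ i} =
      ⋃ i, range fun (f : B → Iic i) (b : B) => (f b).1 := by
    ext f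
    simp only [mem_ofPred_eq, mem_iUnion, mem_range]
    exact ⟨fun ⟨i, hi⟩ => ⟨i, fun b => ⟨f b, hi b⟩, rfl⟩,
      fun ⟨i, f', hf'⟩ => ⟨i, fun b => hf' ▸ (f' b).2⟩⟩
  rw [h1]
  refine mk_iUnion_le_sum_mk.trans ?_
  refine (Cardinal.sum_le_sum _ (fun _ => m) fun i => ?_).trans ?_
  · have hIic : #(Iic i) < m := by
      rw [← Iio_insert]
      refine (mk_insert_le).trans_lt (Cardinal.add_lt_of_lt hm ?_ (one_lt_aleph0.trans_le hm))
      simpa using mk_Iio_lt i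
    refine mk_range_le.trans ?_
    rw [← power_def]
    refine (power_le_power_right (cantor _).le).trans ?_
    rw [← power_mul]
    exact (hsl.isStrongPrelimit (Cardinal.mul_lt_of_lt hm hIic hB)).le
  · rw [Cardinal.sum_const']
    simp [Cardinal.mul_eq_self hm]

variable {R : ZFSet.{u}} {μ : Cardinal.{u}}

theorem apx_of_stat (hμ : μ.IsSingular) (hsl : IsStrongLimit (lift.{u + 1} μ)) (hR : Suitable R)
    {κ : Cardinal.{u + 1}} (hκ : (lift.{u + 1} μ).ord.cof < κ)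
    (hst : ∀ H : Sm (lift.{u + 1} μ) R → Sm (lift.{u + 1} μ) R → Sm (lift.{u + 1} μ) R,
      ∃ x : Set (Sm (lift.{u + 1} μ) R), x.Nonempty ∧ #x < κ ∧ (∀ z ∈ x, ∀ z' ∈ x, H z z' ∈ x) ∧
        Gs R (Subtype.val '' ⋃ z ∈ x, z.1) (Order.succ μ))
    {X : ZFSet.{u}} (hX : X ∈ R) : APX κ (lift.{u + 1} μ) X := by
  classical
  have hm : ℵ₀ ≤ lift.{u + 1} μ := by simpa using hμ.aleph0_le
  have h1m : (1 : Cardinal) ≤ lift.{u + 1} μ := one_le_aleph0.trans hm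
  have hκ0 : ℵ₀ ≤ κ := (Ordinal.aleph0_le_cof_iff.2 (Ordinal.one_lt_cof_iff.2 (isSuccLimit_ord hm))).trans hκ.le
  intro B D g hB hD hcoh
  by_contra hcon
  have hbad : ∀ G : B → Set X, ∃ z, ¬ ∀ᶠ b in (D : Filter B), G b ∩ z.1 = g z b := fun G =>
    not_forall.1 fun h => hcon ⟨G, h⟩
  choose zz hzz using hbad
  let ι : X → R := fun y => ⟨y.1, hR.trans _ hX y.2⟩
  have hι : Function.Injective ι := fun y y' h =>
    Subtype.ext (show (ι y).1 = (ι y').1 from congrArg Subtype.val h)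
  let r : Sm (lift.{u + 1} μ) R → Sm (lift.{u + 1} μ) X := fun z =>
    ⟨ι ⁻¹' z.1, (mk_preimage_of_injective _ _ hι).trans z.2⟩
  have hr : ∀ z z', z ≤ z' → r z ≤ r z' := fun z z' h => preimage_mono (f := ι) h
  let A : Type (u + 1) := (lift.{u + 1} μ).ord.ToType
  have hA : #A = lift.{u + 1} μ := by simp [A]
  have hσ : ∀ w : Sm (lift.{u + 1} μ) R, ∃ σ : A → R, ∀ e ∈ w.1, ∃ a, σ a = e := fun w => by
    obtain ⟨e⟩ := (Cardinal.le_def _ _).1 (w.2.trans hA.ge)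
    refine ⟨Function.extend e Subtype.val fun _ => ⟨X, hX⟩, fun y hy => ⟨e ⟨y, hy⟩, ?_⟩⟩
    rw [e.injective.extend_apply]
  choose σ hσ using hσ
  let GG : Sm (lift.{u + 1} μ) R → (B → A) → B → Set X := fun w f b => {y | y.1 ∈ (σ w (f b)).1}
  have hH : ∀ w z : Sm (lift.{u + 1} μ) R, ∃ H : Sm (lift.{u + 1} μ) R, w ≤ H ∧ z ≤ H ∧
      (⟨X, hX⟩ : R) ∈ H.1 ∧
      (∀ Z ∈ w.1, Z.1.card ≤ μ → ∀ y : R, y.1 ∈ Z.1 → y ∈ H.1) ∧
      (∀ Z ∈ w.1, ∀ b, tr X (g (r z) b) ∩ Z.1 ∈ Subtype.val '' H.1) ∧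
      ∀ f : B → A, (∃ i, ∀ b, f b ≤ i) → zz (GG w f) ≤ r H := fun w z => by
    obtain ⟨z1, hz1⟩ := sm_bound (α := R) hm (T := {Z : R | Z ∈ w.1 ∧ Z.1.card ≤ μ})
      ((mk_le_mk_of_subset fun Z hZ => hZ.1).trans w.2)
      fun Z => ⟨{y : R | y.1 ∈ Z.1.1}, mk_mem_le Z.2.2⟩
    let f : R → B → R := fun Z k => ⟨tr X (g (r z) k) ∩ Z.1,
      hR.sub Z.2 fun y hy => (ZFSet.mem_inter.1 hy).2⟩
    have hc : #(image2 f w.1 Set.univ) ≤ lift.{u + 1} μ :=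
      mk_image2_le.trans ((mul_le_mul' w.2 (by simpa using hB.le)).trans
        (Cardinal.mul_eq_self hm).le)
    obtain ⟨z2, hz2⟩ := sm_bound (α := R) hm (bounded_funs hm hsl hB)
      fun f => ⟨ι '' (zz (GG w f.1)).1, mk_image_le.trans (zz _).2⟩
    obtain ⟨a1, h11, h12⟩ := sm_bound₂ hm w z
    obtain ⟨a2, h21, h22⟩ := sm_bound₂ hm a1 ⟨{⟨X, hX⟩}, by simpa using h1m⟩
    obtain ⟨a3, h31, h32⟩ := sm_bound₂ hm a2 z1
    obtain ⟨a4, h41, h42⟩ := sm_bound₂ hm a3 ⟨_, hc⟩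
    obtain ⟨a5, h51, h52⟩ := sm_bound₂ hm a4 z2
    refine ⟨a5, h11.trans (h21.trans (h31.trans (h41.trans h51))),
      h12.trans (h21.trans (h31.trans (h41.trans h51))),
      (h22.trans (h31.trans (h41.trans h51))) (mem_singleton _),
      fun Z hZ hc y hy => (h32.trans (h41.trans h51)) (hz1 ⟨Z, hZ, hc⟩ hy),
      fun Z hZ b => ⟨f Z b, (h42.trans h51) (mem_image2_of_mem hZ (mem_univ _)), rfl⟩,
      fun f hf y hy => h52 (hz2 ⟨f, hf⟩ (mem_image_of_mem _ hy))⟩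
  choose H hH1 hH2 hH3 hH4 hH5 hH6 using hH
  obtain ⟨x, ⟨z0, hz0⟩, hxκ, hxH, hg⟩ := hst H
  have h2 : ∀ᶠ b in (D : Filter B), ∀ p : x × x,
      p.1.1 ≤ p.2.1 → g (r p.2.1) b ∩ (r p.1.1).1 = g (r p.1.1) b := by
    refine (eventually_cardinal_forall (c := κ) (by
      rw [mk_prod, lift_id]; exact Cardinal.mul_lt_of_lt hκ0 hxκ hxκ)).2 fun p => ?_
    by_cases h : p.1.1 ≤ p.2.1
    · exact (hcoh _ _ (hr _ _ h)).mono fun b hb _ => hb
    · exact Eventually.of_forall fun b h' => (h h').elim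
  have hguess : ∀ᶠ b in (D : Filter B), ∃ w ∈ x, ∃ e ∈ w.1,
      ∀ z ∈ x, {y : X | y.1 ∈ e.1} ∩ (r z).1 = g (r z) b := by
    filter_upwards [h2] with b hb
    have hx1 : ∀ z ∈ x, ∀ z' ∈ x, z ≤ z' → g (r z') b ∩ (r z).1 = g (r z) b :=
      fun z hz z' hz' h => hb (⟨z, hz⟩, ⟨z', hz'⟩) h
    let dd : Set X := ⋃ z ∈ x, g (r z) b
    have hx2 : ∀ z ∈ x, dd ∩ (r z).1 = g (r z) b := fun z hz => by
      apply Subset.antisymm
      · rintro a ⟨ha, haz⟩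
        obtain ⟨z1, hz1, ha1⟩ := mem_iUnion₂.1 ha
        rw [← hx1 z1 hz1 _ (hxH z hz z1 hz1) (hH2 z z1)] at ha1
        rw [← hx1 z hz _ (hxH z hz z1 hz1) (hH1 z z1)]
        exact ⟨ha1.1, haz⟩
      · intro a ha
        refine ⟨mem_iUnion₂.2 ⟨z, hz, ha⟩, ?_⟩
        rw [← hx1 z hz z hz le_rfl] at ha
        exact ha.2
    obtain ⟨e, ⟨e', he', rfl⟩, -, he⟩ := hg X
      ⟨⟨X, hX⟩, mem_iUnion₂.2 ⟨_, hxH z0 hz0 z0 hz0, hH3 z0 z0⟩, rfl⟩ (tr X dd)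
      (hR.sub hX tr_sub) tr_sub (by
        rintro _ ⟨Z, hZ, rfl⟩ - hc
        obtain ⟨w, hw, hZw⟩ := mem_iUnion₂.1 hZ
        have hz := hxH w hw w hw
        have h3 : tr X dd ∩ Z.1 = tr X (g (r (H w w)) b) ∩ Z.1 := by
          ext y
          simp only [ZFSet.mem_inter, mem_tr]
          refine and_congr_left fun hyZ => and_congr_right fun hyX => ?_
          rw [← hx2 _ hz]
          constructor
          · rintro ⟨y', hy', rfl⟩
            exact ⟨y', ⟨hy', hH4 w w Z hZw (Order.lt_succ_iff.1 hc) (ι y') hyZ⟩, rfl⟩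
          · rintro ⟨y', hy', rfl⟩
            exact ⟨y', hy'.1, rfl⟩
        rw [h3]
        obtain ⟨y, hy, hy'⟩ := hH5 w (H w w) Z hZw b
        exact ⟨y, mem_iUnion₂.2 ⟨_, hxH w hw _ hz, hy⟩, hy'⟩)
    obtain ⟨w, hw, hew⟩ := mem_iUnion₂.1 he'
    refine ⟨w, hw, e', hew, fun z hz => ?_⟩
    rw [← hx2 z hz]
    ext y
    refine and_congr_left fun hyz => ?_
    have h4 := Set.ext_iff.1 he y.1
    have h5 : y.1 ∈ Subtype.val '' (⋃ z ∈ x, z.1) := ⟨ι y, mem_iUnion₂.2 ⟨z, hz, hyz⟩, rfl⟩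
    simp only [mem_inter_iff, h5, and_true, SetLike.mem_coe, mem_tr] at h4
    exact ⟨fun h => (Subtype.val_injective.mem_set_image).1 (h4.2 h).2,
      fun h => h4.1 ⟨y.2, mem_image_of_mem _ h⟩⟩
  obtain ⟨w, hwx, hw⟩ := ultra_select D hD hxκ hguess
  obtain ⟨s, hs, hscard⟩ := Order.exists_cof_eq A
  obtain ⟨i, -, hi⟩ := ultra_select D hD (s := s)
    (by rw [hscard, Ordinal.cof_toType]; exact hκ)
    (p := fun b i => ∃ a ≤ i, ∀ z ∈ x, {y : X | y.1 ∈ (σ w a).1} ∩ (r z).1 = g (r z) b)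
    (hw.mono fun b ⟨e, he, hb⟩ => by
      obtain ⟨a, rfl⟩ := hσ w e he
      obtain ⟨i, hi, hai⟩ := hs a
      exact ⟨i, hi, a, hai, hb⟩)
  have hf : ∀ b, ∃ a ≤ i, (∃ a ≤ i, ∀ z ∈ x,
      {y : X | y.1 ∈ (σ w a).1} ∩ (r z).1 = g (r z) b) →
      ∀ z ∈ x, {y : X | y.1 ∈ (σ w a).1} ∩ (r z).1 = g (r z) b := fun b => by
    by_cases h : ∃ a ≤ i, ∀ z ∈ x, {y : X | y.1 ∈ (σ w a).1} ∩ (r z).1 = g (r z) b
    · obtain ⟨a, ha, ha'⟩ := h
      exact ⟨a, ha, fun _ => ha'⟩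
    · exact ⟨i, le_rfl, fun h' => (h h').elim⟩
  choose f hfi hf using hf
  have h6 := hH6 w w f ⟨i, hfi⟩
  refine hzz (GG w f) ?_
  filter_upwards [hi, hcoh _ _ h6] with b hb1 hb2
  rw [← hb2, ← hf b hb1 _ (hxH w hwx w hwx), inter_assoc,
    inter_eq_right.2 (show (zz (GG w f)).1 ⊆ (r (H w w)).1 from h6)]

end Pool.Agent.P.MP_f5d68c_lc.Nar

namespace Pool.Agent.P.MP_f5d68c_lc.Nar

open FirstOrder

/-! From the working definitions to the shared definitions of the row. -/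


variable {R : ZFSet.{u}}

theorem hull_eq {m : Cardinal.{u + 1}} (x : Set (Sm m R)) :
    hull x = Subtype.val '' ⋃ z ∈ x, z.1 := by
  ext a
  simp only [hull, mem_ofPred_eq, mem_image, mem_iUnion, exists_prop]
  constructor
  · rintro ⟨z, hz, h, ha⟩
    exact ⟨⟨a, h⟩, ⟨z, hz, ha⟩, rfl⟩
  · rintro ⟨⟨b, h⟩, ⟨z, hz, ha⟩, rfl⟩
    exact ⟨z, hz, h, ha⟩

theorem suitable_of
    (h : (∃ a : Ordinal.{u}, R = ZFSet.vonNeumann a) ∨
      ∃ θ : Cardinal.{u}, θ.IsRegular ∧ (R : Set ZFSet.{u}) = H θ) : Suitable R := by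
  rcases h with h | ⟨θ, hθ, h⟩
  · exact Or.inl h
  · exact Or.inr ⟨θ, hθ, fun x => by
      have : x ∈ (R : Set ZFSet.{u}) ↔ x ∈ H θ := by rw [h]
      exact this⟩

theorem IsKappa.kappa {M : Set ZFSet.{u}} {κ : Ordinal.{u}} (h : IsKappa M κ) : Kappa M κ := by
  have e : {a : Ordinal.{u} | a.toZFSet ∈ M ∧
      M ∩ (a.toZFSet : Set ZFSet.{u}) ≠ (a.toZFSet : Set ZFSet.{u})} =
      {α : Ordinal.{u} | α.toZFSet ∈ M ∧ ∃ β < α, β.toZFSet ∉ M} := by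
    ext a
    refine and_congr_right fun _ => ?_
    rw [Ne, inter_eq_right, not_subset]
    constructor
    · rintro ⟨y, hy, hyM⟩
      obtain ⟨β, hβ, rfl⟩ := Ordinal.mem_toZFSet_iff.1 hy
      exact ⟨β, hβ, hyM⟩
    · rintro ⟨β, hβ, hβM⟩
      exact ⟨_, Ordinal.mem_toZFSet_iff.2 ⟨β, hβ, rfl⟩, hβM⟩
  unfold Kappa
  rw [← e]
  exact h

theorem gs_iff (hR : R.IsTransitive) {M : Set ZFSet.{u}} (hM : ∀ a ∈ M, a ∈ R)
    (δ : Cardinal.{u}) : Gs R M δ ↔ Guessing δ M R := by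
  have e : ∀ d e : ZFSet.{u}, ((d : Set ZFSet.{u}) ∩ M = (e : Set ZFSet.{u}) ∩ M) ↔
      ∀ z ∈ M, z ∈ d ↔ z ∈ e := fun d e => by
    rw [Set.ext_iff]
    refine forall_congr' fun z => ?_
    simp only [mem_inter_iff, SetLike.mem_coe]
    tauto
  constructor
  · intro h X hX d hd hdX ha
    obtain ⟨c, hc, hcX, hc'⟩ := h X hX d hd hdX fun Z hZ _ hZδ => ha Z hZ hZδ
    exact ⟨c, hc, hcX, (e d c).1 hc'⟩
  · intro h X hX d hd hdX ha
    obtain ⟨c, hc, hcX, hc'⟩ := h X hX d hd hdX fun Z hZ hZδ => ha Z hZ (hR _ (hM Z hZ)) hZδ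
    exact ⟨c, hc, hcX, (e d c).2 hc'⟩

theorem hull_sub {m : Cardinal.{u + 1}} (x : Set (Sm m R)) : ∀ a ∈ hull x, a ∈ R :=
  fun _ ⟨_, _, h, _⟩ => h

theorem lang_card : lang.card ≤ ℵ₀ := by
  have h : ∀ n, Countable (Rel n) := fun n => by
    refine ⟨⟨fun r => match r with | .mem => 0 | .pred => 1, ?_⟩⟩
    intro a b hab
    cases a <;> cases b <;> simp_all
  have : Countable lang.Symbols := by
    have h1 : ∀ n, Countable (lang.Functions n) := fun n => inferInstanceAs (Countable Empty)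
    have h2 : ∀ n, Countable (lang.Relations n) := h
    unfold Language.Symbols
    infer_instance
  exact mk_le_aleph0

theorem elem_of (A : Set ZFSet.{u}) {N : Set R}
    (E : @Language.ElementarySubstructure lang R (str (R : Set ZFSet.{u}) A))
    (hE : (E : Set R) = N) : Elem (Subtype.val '' N) R A := by
  let iR : lang.Structure R := str (R : Set ZFSet.{u}) A
  let iM : lang.Structure (Subtype.val '' N : Set ZFSet.{u}) := str _ A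
  have hmem : ∀ a : (Subtype.val '' N : Set ZFSet.{u}), a.1 ∈ R := fun a => by
    obtain ⟨b, -, hb⟩ := a.2
    exact hb ▸ b.2
  have hmemE : ∀ a : (Subtype.val '' N : Set ZFSet.{u}), (⟨a.1, hmem a⟩ : R) ∈ E := fun a => by
    obtain ⟨b, hbN, hb⟩ := a.2
    have : (⟨a.1, hmem a⟩ : R) = b := Subtype.ext hb.symm
    rw [this, ← SetLike.mem_coe, hE]
    exact hbN
  let e : (Subtype.val '' N : Set ZFSet.{u}) ≃ E :=
    { toFun := fun a => ⟨⟨a.1, hmem a⟩, hmemE a⟩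
      invFun := fun b => ⟨b.1.1, b.1, hE ▸ b.2, rfl⟩
      left_inv := fun _ => rfl
      right_inv := fun _ => rfl }
  let f : Language.Equiv lang (Subtype.val '' N : Set ZFSet.{u}) E :=
    { toEquiv := e
      map_fun' := fun g => g.elim
      map_rel' := fun r v => by cases r <;> exact Iff.rfl }
  exact ⟨E.subtype.comp f.toElementaryEmbedding, fun _ => rfl⟩

theorem good_iff {μ : Cardinal.{u}} (hR : Suitable R) (A : Set ZFSet.{u})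
    {x : Set (Sm (lift.{u + 1} μ) R)} (h : @GoodHull lang R (str (R : Set ZFSet.{u}) A) μ x) :
    Elem (hull x) R A ∧ Kappa (hull x) (Order.succ μ).ord ∧
      Guessing (Order.succ μ) (hull x) R := by
  obtain ⟨⟨E, hE⟩, h2, h3⟩ := h
  refine ⟨?_, ?_, (gs_iff hR.trans (hull_sub x) _).1 ?_⟩ <;> rw [hull_eq]
  · exact elem_of A E hE
  · exact h2.kappa
  · exact h3

/-- The narrow system hypothesis holds when `μ` is almost strongly compact, for example a limit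
of strongly compact cardinals. -/
theorem ns_of_ac {μ l : Cardinal.{u}} (hμ : μ.IsSingular) (hμl : Order.succ μ ≤ l)
    (h : ∀ Y : ZFSet.{u}, Y.card ≤ l → AC (lift.{u + 1} μ) Y) :
    IsStrongLimit (lift.{u + 1} μ) ∧ ∀ Y : ZFSet.{u}, Y.card ≤ l → NS (lift.{u + 1} μ) Y := by
  have hm : ℵ₀ ≤ lift.{u + 1} μ := by simpa using hμ.aleph0_le
  have hlim := singular_limit (singular_lift.{u, u + 1} hμ)
  refine ⟨(h (Order.succ μ).ord.toZFSet (by simpa using hμl)).strong hm hlim ?_,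
    fun Y hY => (h Y hY).ns hm hlim⟩
  rw [ZFSet.cardinalMk_coe_sort, lift_lt]
  simp

end Pool.Agent.P.MP_f5d68c_lc.Nar
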